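import Pool.Agent.Lib.MP_1a0ddd_nt.Pu.Defs

/-! Averages over open subsets of the base. -/

set_option autoImplicit false

namespace Pool.Agent.Lib.MP_1a0ddd_nt.Pu

open Polynomial Pool.Agent.Lib.MP_1a0ddd_nt.V Pool.Agent.Lib.MP_1a0ddd_nt.W Un

variable {R R' : Type} [CommRing R] [CommRing R'] {ι : R →+* R'}

private theorem val_bcA {p : ℕ} (z : R' →+* ZMod p) (q : ZMod p × ZMod p) (F : R[X][X]) :
    val z q (bc ι F) = val (z.comp ι) q F := by
  have h : (val z q).comp (mapRingHom (mapRingHom ι)) = val (z.comp ι) q := by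
    unfold val
    apply Polynomial.ringHom_ext'
    · apply Polynomial.ringHom_ext'
      · ext x
        simp
      · simp
    · simp
  exact congrArg (fun f : R[X][X] →+* ZMod p => f F) h

private theorem trc_bc (F G : R[X][X]) (p : ℕ) (z : R' →+* ZMod p) (t : ZMod p) :
    trc (bc ι F) (bc ι G) p z t = trc F G p (z.comp ι) t := by
  unfold trc
  simp only [val_bcA]

private theorem top_bcA (δ : ℕ) (F : R[X][X]) : top δ (bc ι F) = (top δ F).map ι := by
  unfold top bc
  rw [Polynomial.map_sum]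
  refine Finset.sum_congr rfl fun i _ => ?_
  rw [Polynomial.map_mul, Polynomial.map_pow, Polynomial.map_C, Polynomial.map_X,
    Polynomial.coeff_map, Polynomial.coe_mapRingHom, Polynomial.coeff_map]

private theorem trP_bc (δ : ℕ) (F G : R[X][X]) (p : ℕ) (z : R' →+* ZMod p) (t : ZMod p) :
    trP δ (bc ι F) (bc ι G) p z t = trP δ F G p (z.comp ι) t := by
  unfold trP
  simp only [val_bcA, top_bcA, Polynomial.map_map]

/-- the homomorphisms which do not vanish at `D` are those of `R'` -/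
private theorem bij_away {D : R} (h : IsAway ι D) (p : ℕ) (hp : p.Prime) :
    Function.Bijective (fun z : R' →+* ZMod p => (⟨z.comp ι, by
      have : Fact p.Prime := ⟨hp⟩
      exact (h.unit.map z).ne_zero⟩ : {z : R →+* ZMod p // z D ≠ 0})) := by
  have hpf : Fact p.Prime := ⟨hp⟩
  constructor
  · intro z₁ z₂ h12
    have h12' : z₁.comp ι = z₂.comp ι := congrArg Subtype.val h12
    ext x
    obtain ⟨s, m, hs⟩ := h.surj x
    have e1 : z₁ x * z₁ (ι D) ^ m = z₁ (ι s) := by rw [← map_pow, ← map_mul, hs]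
    have e2 : z₂ x * z₂ (ι D) ^ m = z₂ (ι s) := by rw [← map_pow, ← map_mul, hs]
    have e3 : z₁ (ι s) = z₂ (ι s) := congrArg (fun f : R →+* ZMod p => f s) h12'
    have e4 : z₁ (ι D) = z₂ (ι D) := congrArg (fun f : R →+* ZMod p => f D) h12'
    have hD : z₂ (ι D) ^ m ≠ 0 := pow_ne_zero _ (h.unit.map z₂).ne_zero
    rw [e4, e3, ← e2] at e1
    exact mul_right_cancel₀ hD e1
  · rintro ⟨z, hz⟩
    let _ : Algebra R R' := ι.toAlgebra
    have hloc : IsLocalization.Away D R' := by
      refine ⟨?_, ?_, ?_⟩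
      · rintro ⟨y, m, rfl⟩
        exact (map_pow ι D m) ▸ h.unit.pow m
      · intro x
        obtain ⟨s, m, hs⟩ := h.surj x
        refine ⟨⟨s, ⟨D ^ m, m, rfl⟩⟩, ?_⟩
        change x * ι (D ^ m) = ι s
        rw [map_pow, hs]
      · intro x y hxy
        exact ⟨1, by rw [h.inj hxy]⟩
    have hu : IsUnit (z D) := IsUnit.mk0 _ hz
    refine ⟨IsLocalization.Away.lift D hu, ?_⟩
    apply Subtype.ext
    exact IsLocalization.Away.lift_comp D hu

private theorem finsum_away {D : R} (h : IsAway ι D) (p : ℕ) (hp : p.Prime)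
    (f : (R →+* ZMod p) → ℝ) :
    ∑ᶠ z : R' →+* ZMod p, f (z.comp ι) = ∑ᶠ z : {z : R →+* ZMod p // z D ≠ 0}, f z.1 :=
  finsum_eq_of_bijective _ (bij_away h p hp) fun _ => rfl

/-- the `F_p`-points of `R' = R[1/D]` are those of `R` with `D ≠ 0` -/
theorem avg_away {D : R} (h : IsAway ι D) (F G : R[X][X]) (d p : ℕ) (hp : p.Prime) :
    avg (bc ι F) (bc ι G) d p = avgD F G D d p := by
  unfold avg avgD
  simp only [trc_bc]
  rw [finsum_away h p hp (fun z => ∑ᶠ t : ZMod p, (trc F G p z t : ℝ))]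

theorem avgP_away {D : R} (h : IsAway ι D) (δ : ℕ) (F G : R[X][X]) (B : R[X]) {u : R'}
    (hu : IsUnit u) (d p : ℕ) (hp : p.Prime) :
    avgP δ (bc ι F) (bc ι G) (C u * B.map ι) d p = avgPD δ F G B D d p := by
  have hpf : Fact p.Prime := ⟨hp⟩
  unfold avgP avgPD
  have hB : ∀ (z : R' →+* ZMod p) (t : ZMod p),
      (((C u * B.map ι).map z).eval t ≠ 0) = ((B.map (z.comp ι)).eval t ≠ 0) := by
    intro z t
    apply propext
    rw [Polynomial.map_mul, Polynomial.map_C, Polynomial.eval_mul, Polynomial.eval_C,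
      Polynomial.map_map]
    have : z u ≠ 0 := (hu.map z).ne_zero
    constructor
    · intro h1 h2
      exact h1 (by rw [h2, mul_zero])
    · intro h1
      exact mul_ne_zero this h1
  have key : ∀ z : R' →+* ZMod p,
      ∑ᶠ t : {t : ZMod p // ((C u * B.map ι).map z).eval t ≠ 0},
        (trP δ (bc ι F) (bc ι G) p z t : ℝ) =
      ∑ᶠ t : {t : ZMod p // (B.map (z.comp ι)).eval t ≠ 0},
        (trP δ F G p (z.comp ι) t : ℝ) := by
    intro z
    simp only [trP_bc]
    refine finsum_eq_of_bijective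
      (fun t => ⟨t.1, (hB z t.1).mp t.2⟩) ⟨?_, ?_⟩ fun _ => rfl
    · intro t₁ t₂ h12
      exact Subtype.ext (congrArg
        (fun t : {t : ZMod p // (B.map (z.comp ι)).eval t ≠ 0} => (t : ZMod p)) h12)
    · rintro ⟨t, ht⟩
      exact ⟨⟨t, (hB z t).mpr ht⟩, rfl⟩
  simp only [key]
  rw [finsum_away h p hp (fun z => ∑ᶠ t : {t : ZMod p // (B.map z).eval t ≠ 0},
    (trP δ F G p z t : ℝ))]

end Pool.Agent.Lib.MP_1a0ddd_nt.Pu
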