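import Pool.Agent.Lib.MP_1a0ddd_nt.Pu.Defs
import Pool.Agent.Lib.MP_1a0ddd_nt.V.Fin

/-! Base change of pencils. -/

set_option autoImplicit false
set_option linter.unusedSectionVars false
set_option linter.style.haveILetI false
set_option linter.unusedVariables false

namespace Pool.Agent.Lib.MP_1a0ddd_nt.Pu

open Polynomial Pool.Agent.Lib.MP_1a0ddd_nt.V Pool.Agent.Lib.MP_1a0ddd_nt.W Un

variable {R R' : Type} [CommRing R] [IsDomain R] [CommRing R'] [IsDomain R'] {ι : R →+* R'}

omit [IsDomain R] [IsDomain R'] in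
private theorem coeff_bc' (ι : R →+* R') (F : R[X][X]) (i : ℕ) :
    (bc ι F).coeff i = (F.coeff i).map ι := by
  rw [bc, coeff_map, coe_mapRingHom]

omit [IsDomain R] in
private theorem coeff_dx' (P : R[X][X]) (i : ℕ) :
    (dx P).coeff i = derivative (P.coeff i) := by
  unfold dx
  rw [finsetSum_coeff]
  simp only [coeff_C_mul, coeff_X_pow, mul_ite, mul_one, mul_zero]
  rw [Finset.sum_ite_eq]
  split_ifs with h
  · rfl
  · rw [notMem_support_iff.mp h, derivative_zero]

omit [IsDomain R] [IsDomain R'] in
private theorem dx_bc' (ι : R →+* R') (P : R[X][X]) : dx (bc ι P) = bc ι (dx P) := by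
  ext1 i
  rw [coeff_dx', coeff_bc', coeff_bc', coeff_dx', derivative_map]

omit [IsDomain R] [IsDomain R'] in
private theorem derivative_bc' (ι : R →+* R') (P : R[X][X]) :
    derivative (bc ι P) = bc ι (derivative P) := by
  rw [bc, bc, derivative_map]

omit [IsDomain R] [IsDomain R'] in
private theorem bc_inj' (hι : Function.Injective ι) : Function.Injective (bc ι) := by
  intro a b h
  have h1 : Function.Injective (mapRingHom ι) := by
    rw [coe_mapRingHom]; exact map_injective ι hι
  exact map_injective (mapRingHom ι) h1 h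

omit [IsDomain R] [IsDomain R'] in
private theorem monic_bc' (ι : R →+* R') {F : R[X][X]} (h : F.Monic) : (bc ι F).Monic :=
  h.map _

omit [IsDomain R] [IsDomain R'] in
private theorem natDegree_bc' (hι : Function.Injective ι) (F : R[X][X]) :
    (bc ι F).natDegree = F.natDegree := by
  have h1 : Function.Injective (mapRingHom ι) := by
    rw [coe_mapRingHom]; exact map_injective ι hι
  exact natDegree_map_eq_of_injective h1 F

omit [IsDomain R] [IsDomain R'] in
private theorem natDegree_coeff_bc' (hι : Function.Injective ι) (F : R[X][X]) (i : ℕ) :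
    ((bc ι F).coeff i).natDegree = (F.coeff i).natDegree := by
  rw [coeff_bc', natDegree_map_eq_of_injective hι]

omit [IsDomain R] [IsDomain R'] in
private theorem coeff_ne' (hι : Function.Injective ι) (F : R[X][X]) (i : ℕ)
    (h : (bc ι F).coeff i ≠ 0) : F.coeff i ≠ 0 := by
  intro h0
  apply h
  rw [coeff_bc', h0, Polynomial.map_zero]

omit [IsDomain R] [IsDomain R'] in
private theorem bc_ne' (hι : Function.Injective ι) {F : R[X][X]} (h : F ≠ 0) : bc ι F ≠ 0 := by
  intro h0
  apply h
  apply bc_inj' hι
  rw [h0, bc, Polynomial.map_zero]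

omit [IsDomain R] [IsDomain R'] in
private theorem bc_CC' (ι : R →+* R') (D : R) : bc ι (C (C D)) = C (C (ι D)) := by
  rw [bc, map_C, coe_mapRingHom, map_C]

omit [IsDomain R] [IsDomain R'] in
private theorem mem_sing' (ι : R →+* R') {F x : R[X][X]} (h : x ∈ sing F) :
    bc ι x ∈ sing (bc ι F) := by
  have h1 : Ideal.map (mapRingHom (mapRingHom ι)) (sing F) = sing (bc ι F) := by
    unfold sing
    rw [Ideal.map_span, dx_bc', derivative_bc']
    congr 1
    simp only [Set.image_insert_eq, Set.image_singleton, coe_mapRingHom, bc]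
  rw [← h1]
  exact Ideal.mem_map_of_mem (mapRingHom (mapRingHom ι)) h

omit [IsDomain R] [IsDomain R'] in
private theorem regular_bc' (hι : Function.Injective ι) {F G : R[X][X]} (h : Regular F G) :
    Regular (bc ι F) (bc ι G) := by
  obtain ⟨D, hD, hm⟩ := h
  refine ⟨ι D, (map_ne_zero_iff ι hι).mpr hD, ?_⟩
  obtain ⟨a, ha, b, hb, hab⟩ := Submodule.mem_sup.mp hm
  rw [← bc_CC', ← hab]
  have : bc ι (a + b) = bc ι a + bc ι b := by rw [bc, Polynomial.map_add]; rfl
  rw [this]
  exact Submodule.add_mem_sup (mem_sing' ι ha) (mem_sing' ι hb)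

omit [IsDomain R] [IsDomain R'] in
theorem cabPen_map (hι : Function.Injective ι) {a b : ℕ} {F G : R[X][X]}
    (h : CabPen a b F G) : CabPen a b (bc ι F) (bc ι G) where
  apos := h.apos
  bpos := h.bpos
  cop := h.cop
  cab :=
    { monic := monic_bc' ι h.cab.monic
      deg := by rw [natDegree_bc' hι, h.cab.deg]
      zero := by rw [natDegree_coeff_bc' hι, h.cab.zero]
      lt := by
        intro i h1 h2
        rw [natDegree_coeff_bc' hι]
        exact h.cab.lt i h1 h2 }
  low := by
    intro i hi
    rw [natDegree_coeff_bc' hι]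
    exact h.low i (coeff_ne' hι G i hi)
  ne := bc_ne' hι h.ne
  reg := regular_bc' hι h.reg

omit [IsDomain R] [IsDomain R'] in
theorem planePencil_map (hι : Function.Injective ι) {δ : ℕ} {F G : R[X][X]}
    (h : PlanePencil δ F G) : PlanePencil δ (bc ι F) (bc ι G) where
  pencil :=
    { monic := monic_bc' ι h.pencil.monic
      lt := by rw [natDegree_bc' hι, natDegree_bc' hι]; exact h.pencil.lt
      ne := bc_ne' hι h.pencil.ne
      cop := by
        obtain ⟨ρ, h1, h2⟩ := h.pencil.cop
        refine ⟨ρ.map ι, ?_, ?_⟩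
        · intro h0
          apply h1
          apply map_injective ι hι
          rw [h0, Polynomial.map_zero]
        · rw [Ideal.mem_span_pair] at h2 ⊢
          obtain ⟨a, b, hab⟩ := h2
          refine ⟨bc ι a, bc ι b, ?_⟩
          have := congrArg (bc ι) hab
          simp only [bc, Polynomial.map_add, Polynomial.map_mul, map_C, coe_mapRingHom] at this ⊢
          exact this
      reg := regular_bc' hι h.pencil.reg }
  deg := by rw [natDegree_bc' hι, h.deg]
  degF := by
    intro i hi
    rw [natDegree_coeff_bc' hι]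
    exact h.degF i (coeff_ne' hι F i hi)
  degG := by
    intro i hi
    rw [natDegree_coeff_bc' hι]
    exact h.degG i (coeff_ne' hι G i hi)

omit [IsDomain R] [IsDomain R'] in
theorem top_map (δ : ℕ) (F : R[X][X]) : top δ (bc ι F) = (top δ F).map ι := by
  unfold top
  rw [Polynomial.map_sum]
  refine Finset.sum_congr rfl fun i _ => ?_
  rw [Polynomial.map_mul, map_C, Polynomial.map_pow, map_X, coeff_bc', coeff_map]

omit [IsDomain R] [IsDomain R'] in
theorem fib_map (hι : Function.Injective ι) (F G : R[X][X]) (B : R[X]) :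
    fib (bc ι F) (bc ι G) (B.map ι) = bc ι (fib F G B) :=
  (fib_bc ι hι F G B).symm

omit [IsDomain R] [IsDomain R'] in
/-- scaling of `B` by a unit -/
theorem fib_scale (F G : R[X][X]) (B : R[X]) {u : R} (hu : IsUnit u) :
    fib F G (C u * B) = C (C u) * fib F G B := by
  have h1 : (C u * B).natDegree = B.natDegree := by
    by_cases hB : B = 0
    · rw [hB, mul_zero]
    · refine natDegree_C_mul_of_mul_ne_zero ?_
      rw [Ne, hu.mul_right_eq_zero]
      exact leadingCoeff_ne_zero.mpr hB
  unfold fib
  rw [h1, Finset.mul_sum]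
  refine Finset.sum_congr rfl fun i _ => ?_
  rw [coeff_C_mul, C_mul, C_mul]
  ring

/-- the fraction field of `R' = R[1/D]` is a fraction field of `R` -/
theorem away_frac {D : R} (h : IsAway ι D) (K : Type) [Field K] [Algebra R' K]
    [IsFractionRing R' K] : @IsFractionRing R _ K _ ((algebraMap R' K).comp ι).toAlgebra := by
  letI : Algebra R K := ((algebraMap R' K).comp ι).toAlgebra
  have hmap : ∀ r : R, algebraMap R K r = algebraMap R' K (ι r) := fun r => rfl
  have hinj : Function.Injective (algebraMap R K) :=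
    (IsFractionRing.injective R' K).comp h.inj
  haveI : FaithfulSMul R K := (faithfulSMul_iff_algebraMap_injective R K).mpr hinj
  apply IsFractionRing.of_field
  intro z
  obtain ⟨a, b, hb, rfl⟩ := IsFractionRing.div_surjective (A := R') z
  obtain ⟨s, m, hs⟩ := h.surj a
  obtain ⟨t, n, ht⟩ := h.surj b
  have hD : algebraMap R' K (ι D) ≠ 0 := by
    rw [Ne, map_eq_zero_iff _ (IsFractionRing.injective R' K)]
    exact h.unit.ne_zero
  have hb0 : algebraMap R' K b ≠ 0 := by
    rw [Ne, map_eq_zero_iff _ (IsFractionRing.injective R' K)]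
    exact nonZeroDivisors.ne_zero hb
  refine ⟨s * D ^ n, t * D ^ m, ?_⟩
  rw [hmap, hmap, map_mul ι, map_mul ι, map_pow, map_pow, ← hs, ← ht]
  simp only [map_mul, map_pow]
  field_simp

/-- proof: `away_frac`, `IrrGeneric` is about all fraction fields -/
theorem irrGeneric_map {D : R} (h : IsAway ι D) {F G : R[X][X]} {B : R[X]}
    (hB : IrrGeneric F G B) {u : R'} (hu : IsUnit u) :
    IrrGeneric (bc ι F) (bc ι G) (C u * B.map ι) := by
  intro K _ _ _
  letI : Algebra R K := ((algebraMap R' K).comp ι).toAlgebra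
  haveI := away_frac h K
  have h1 := hB K
  have hmap : algebraMap R K = (algebraMap R' K).comp ι := rfl
  have hbc : ∀ P : R[X][X], bc (algebraMap R' K) (bc ι P) = bc (algebraMap R K) P := by
    intro P
    ext1 i
    rw [coeff_bc', coeff_bc', coeff_bc', Polynomial.map_map, hmap]
  intro q hq hqB
  rw [hbc, hbc]
  apply h1 q hq
  intro hdvd
  apply hqB
  rw [Polynomial.map_mul, Polynomial.map_map, ← hmap]
  exact Dvd.dvd.mul_left hdvd _

theorem baseVar_away {d : ℕ} (hR : BaseVar R d) {D : R} (hD : D ≠ 0) (h : IsAway ι D) :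
    BaseVar R' d := by
  letI : Algebra R R' := ι.toAlgebra
  have hmap : ∀ r : R, algebraMap R R' r = ι r := fun r => rfl
  haveI := hR.zero
  haveI := hR.finite
  haveI : FaithfulSMul R R' := (faithfulSMul_iff_algebraMap_injective R R').mpr h.inj
  have hz : CharZero R' := charZero_of_injective_ringHom h.inj
  obtain ⟨v, hv⟩ := h.unit
  have hfin : Algebra.FiniteType R R' := by
    refine ⟨{(↑v⁻¹ : R')}, ?_⟩
    rw [eq_top_iff]
    intro x _
    obtain ⟨s, m, hs⟩ := h.surj x
    have hx : x = algebraMap R R' s * (↑v⁻¹ : R') ^ m := by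
      rw [hmap, ← hs, ← hv, mul_assoc, ← mul_pow, Units.mul_inv, one_pow, mul_one]
    rw [hx]
    refine mul_mem (Subalgebra.algebraMap_mem _ _) (pow_mem (Algebra.subset_adjoin ?_) _)
    simp
  have halg : Algebra.IsAlgebraic R R' := by
    constructor
    intro x
    obtain ⟨s, m, hs⟩ := h.surj x
    refine ⟨C (D ^ m) * X - C s, ?_, ?_⟩
    · intro h0
      have h1 := congrArg (fun p => p.coeff 1) h0
      simp only [coeff_sub, coeff_C_mul, coeff_X_one, mul_one, coeff_C_succ, sub_zero,
        coeff_zero] at h1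
      exact pow_ne_zero m hD h1
    · rw [map_sub, map_mul, aeval_C, aeval_C, aeval_X, map_pow, hmap, hmap, mul_comm, hs, sub_self]
  refine ⟨inferInstance, hz, ?_, ?_⟩
  · exact Algebra.FiniteType.trans hR.finite hfin
  · haveI : FaithfulSMul ℤ R := by
      rw [faithfulSMul_iff_algebraMap_injective]
      exact (algebraMap ℤ R).injective_int
    have h1 := trdeg_add_eq (R := ℤ) (S := R) (A := R')
    rw [← h1, hR.dim, _root_.trdeg_eq_zero, add_zero]

end Pool.Agent.Lib.MP_1a0ddd_nt.Pu
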