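import Pool.Agent.Lib.MP_1a0ddd_nt.Pu.Defs
import Pool.Agent.Lib.MP_1a0ddd_nt.Un.Trd
import Pool.Agent.Lib.MP_1a0ddd_nt.Cn.Km

/-! Dimensions of components in the affine plane and on the affine line; models. -/

set_option autoImplicit false

namespace Pool.Agent.Lib.MP_1a0ddd_nt.Pu

open Polynomial Pool.Agent.Lib.MP_1a0ddd_nt.V Pool.Agent.Lib.MP_1a0ddd_nt.W
  Pool.Agent.Lib.MP_1a0ddd_nt.Fb Pool.Agent.Lib.MP_1a0ddd_nt.Cn Un

section aux

private theorem dm_gen {K S : Type} [Field K] [CommRing S] [i : Algebra K S] (κ : K →+* S)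
    (h : κ = algebraMap K S) : @Algebra.trdeg K S _ _ κ.toAlgebra = Algebra.trdeg K S := by
  have h1 : κ.toAlgebra = i := Algebra.algebra_ext _ _ fun r => RingHom.congr_fun h r
  rw [h1]

private theorem dm_two {K : Type} [Field K] (M : Ideal K[X][X]) :
    @Algebra.trdeg K (K[X][X] ⧸ M) _ _ ((Ideal.Quotient.mk M).comp (C.comp C)).toAlgebra =
      Algebra.trdeg K (K[X][X] ⧸ M) := by
  refine dm_gen _ (RingHom.ext fun r => ?_)
  exact Ideal.Quotient.mk_algebraMap K M r

private theorem dm_trdeg (K : Type) [Field K] :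
    Algebra.trdeg K K[X][X] = ((1 + 1 : ℕ) : Cardinal) := by
  rw [← trdeg_add_eq K K[X] (A := K[X][X]), Polynomial.trdeg_of_isDomain,
    Polynomial.trdeg_of_isDomain]
  norm_cast

/-- the image of the variable is integral if a nonzero polynomial is mapped to zero -/
private theorem dm_int {K Q : Type} [Field K] [CommRing Q] [Algebra K Q] (f : K[X] →ₐ[K] Q)
    {ρ : K[X]} (h0 : ρ ≠ 0) (h : f ρ = 0) (a : K[X]) : IsIntegral K (f a) := by
  have h1 : IsIntegral K (f X) := by
    refine IsAlgebraic.isIntegral ⟨ρ, h0, ?_⟩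
    rw [aeval_algHom_apply, aeval_X_left_apply]
    exact h
  have h2 : f a = aeval (f X) a := by
    rw [aeval_algHom_apply, aeval_X_left_apply]
  rw [h2]
  induction a using Polynomial.induction_on' with
  | add p q hp hq =>
    rw [map_add]
    exact (hp (by rw [aeval_algHom_apply, aeval_X_left_apply])).add
      (hq (by rw [aeval_algHom_apply, aeval_X_left_apply]))
  | monomial n c =>
    rw [aeval_monomial]
    exact isIntegral_algebraMap.mul (h1.pow n)

private theorem dm_ln {K Q : Type} [Field K] [CommRing Q] [Nontrivial Q] (κ : K →+* Q)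
    (f : K[X] →+* Q) (hf : Function.Surjective f) (hK : f.comp C = κ)
    {ρ : K[X]} (h0 : ρ ≠ 0) (h : f ρ = 0) :
    @Algebra.trdeg K Q _ _ κ.toAlgebra = ((0 : ℕ) : Cardinal) := by
  let := κ.toAlgebra
  let g : K[X] →ₐ[K] Q := { f with commutes' := fun c => RingHom.congr_fun hK c }
  have h1 : Algebra.IsIntegral K Q := by
    refine ⟨fun q => ?_⟩
    obtain ⟨q, rfl⟩ := hf q
    exact dm_int g h0 h q
  rw [Nat.cast_zero]
  exact trdeg_eq_zero

private theorem dm_pt {K Q : Type} [Field K] [CommRing Q] [Nontrivial Q] (κ : K →+* Q)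
    (f : K[X][X] →+* Q) (hf : Function.Surjective f) (hK : f.comp (C.comp C) = κ)
    {ρ : K[X]} (h0 : ρ ≠ 0) (h : f (C ρ) = 0) {F : K[X][X]} (hF : F.Monic) (hFf : f F = 0) :
    @Algebra.trdeg K Q _ _ κ.toAlgebra = ((0 : ℕ) : Cardinal) := by
  let := κ.toAlgebra
  let g : K[X] →ₐ[K] Q := { f.comp C with commutes' := fun c => RingHom.congr_fun hK c }
  have h1 : ∀ a, IsIntegral K (f (C a)) := fun a => dm_int g h0 h a
  let B := integralClosure K Q
  let g' : K[X] →+* B := (f.comp C).codRestrict B h1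
  have h2 : IsIntegral B (f X) := by
    refine ⟨F.map g', hF.map g', ?_⟩
    rw [eval₂_map]
    have h3 : (algebraMap B Q).comp g' = f.comp C := rfl
    rw [h3, ← hom_eval₂, eval₂_C_X]
    exact hFf
  have h3 : IsIntegral K (f X) := isIntegral_trans (A := B) _ h2
  have h4 : Algebra.IsIntegral K Q := by
    refine ⟨fun q => ?_⟩
    obtain ⟨q, rfl⟩ := hf q
    induction q using Polynomial.induction_on' with
    | add p q hp hq =>
      rw [map_add]
      exact hp.add hq
    | monomial n c =>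
      rw [← C_mul_X_pow_eq_monomial, map_mul, map_pow]
      exact (h1 c).mul (h3.pow n)
  rw [Nat.cast_zero]
  exact trdeg_eq_zero

private theorem dm_surj {R S O : Type} [CommRing R] [IsDomain R] [CommRing S] [Algebra R S]
    [CommRing O] {j : S →+* O}
    (h : ∀ o : O, ∃ (s : S) (r : R), r ≠ 0 ∧ o * j (algebraMap R S r) = j s) (o : O[X]) :
    ∃ (s : S[X]) (r : R), r ≠ 0 ∧
      o * mapRingHom j (algebraMap R S[X] r) = mapRingHom j s := by
  induction o using Polynomial.induction_on' with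
  | add p q hp hq =>
    obtain ⟨s, r, hr, e⟩ := hp
    obtain ⟨s', r', hr', e'⟩ := hq
    refine ⟨s * algebraMap R S[X] r' + s' * algebraMap R S[X] r, r * r', mul_ne_zero hr hr', ?_⟩
    rw [map_mul, map_mul, map_add, map_mul, map_mul, ← e, ← e']
    ring
  | monomial n c =>
    obtain ⟨s, r, hr, e⟩ := h c
    refine ⟨monomial n s, r, hr, ?_⟩
    rw [Polynomial.algebraMap_apply, coe_mapRingHom, map_C, monomial_mul_C, map_monomial, e]

private theorem dm_away {S S' : Type} [CommRing S] [CommRing S'] {ι : S →+* S'} {D : S}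
    (h : IsAway ι D) : IsAway (mapRingHom ι) (C D) := by
  refine ⟨?_, ?_, fun x => ?_⟩
  · rw [coe_mapRingHom]
    exact map_injective ι h.inj
  · rw [coe_mapRingHom, map_C]
    exact h.unit.map C
  · induction x using Polynomial.induction_on' with
    | add p q hp hq =>
      obtain ⟨s, m, e⟩ := hp
      obtain ⟨s', m', e'⟩ := hq
      refine ⟨s * C D ^ m' + s' * C D ^ m, m + m', ?_⟩
      rw [map_add, map_mul, map_mul, map_pow, map_pow, ← e, ← e', pow_add]
      ring
    | monomial n c =>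
      obtain ⟨s, m, e⟩ := h.surj c
      refine ⟨monomial n s, m, ?_⟩
      rw [coe_mapRingHom, map_C, ← C_pow, monomial_mul_C, map_monomial, e]

private theorem dm_frac {R : Type} [CommRing R] [IsDomain R] (o : FractionRing R) :
    ∃ (s : R) (r : R), r ≠ 0 ∧ o * algebraMap R (FractionRing R) (algebraMap R R r) =
      algebraMap R (FractionRing R) s := by
  obtain ⟨s, r, hr, e⟩ := IsFractionRing.div_surjective (A := R) o
  refine ⟨s, r, nonZeroDivisors.ne_zero hr, ?_⟩
  rw [← e, Algebra.algebraMap_self_apply]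
  refine div_mul_cancel₀ _ ?_
  rw [Ne, IsFractionRing.to_map_eq_zero_iff]
  exact nonZeroDivisors.ne_zero hr

end aux

/-- proof: the minimal primes over `(G)` are generated by the prime factors of `G`;
`trdeg_quot_prime` with `trdeg K K[x, y] = 2` -/
theorem dim_curve {K : Type} [Field K] {G : K[X][X]} (hG : G ≠ 0) :
    ∀ M ∈ (Ideal.span {G}).minimalPrimes, @Algebra.trdeg K (K[X][X] ⧸ M) _ _
      ((Ideal.Quotient.mk M).comp (C.comp C)).toAlgebra = ((1 : ℕ) : Cardinal) := by
  intro M hM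
  rw [dm_two M]
  have hp : M.IsPrime := hM.1.1
  have hGM : G ∈ M := hM.1.2 (Ideal.subset_span rfl)
  obtain ⟨s, hs, u, hu⟩ := UniqueFactorizationMonoid.exists_prime_factors G hG
  obtain ⟨π, hπs, hπM⟩ : ∃ π ∈ s, π ∈ M := by
    rw [← hp.multiset_prod_mem_iff_exists_mem]
    have h2 : s.prod = G * ↑u⁻¹ := by
      rw [← hu, mul_assoc, Units.mul_inv, mul_one]
    rw [h2]
    exact Ideal.mul_mem_right _ _ hGM
  have hπ : Prime π := hs π hπs
  have hπG : π ∣ G := (Multiset.dvd_prod hπs).trans ⟨u, hu.symm⟩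
  have h1 : Ideal.span {π} ≤ M := by
    rw [Ideal.span_singleton_le_iff_mem]
    exact hπM
  have h2 : M ≤ Ideal.span {π} := hM.2
    ⟨(Ideal.span_singleton_prime hπ.ne_zero).2 hπ,
      Ideal.span_singleton_le_span_singleton.2 hπG⟩ h1
  obtain rfl : Ideal.span {π} = M := le_antisymm h1 h2
  exact trdeg_quot_prime hπ 1 (dm_trdeg K)

/-- proof: `K[x, y]/I` is finite over `K` (`ρ(x) ∈ I` and `F` monic in `y`) -/
theorem dim_point {K : Type} [Field K] {F G : K[X][X]} (hF : F.Monic)
    (hc : ∃ ρ : K[X], ρ ≠ 0 ∧ C ρ ∈ Ideal.span {F, G}) :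
    ∀ M ∈ (Ideal.span {F, G}).minimalPrimes, @Algebra.trdeg K (K[X][X] ⧸ M) _ _
      ((Ideal.Quotient.mk M).comp (C.comp C)).toAlgebra = ((0 : ℕ) : Cardinal) := by
  intro M hM
  obtain ⟨ρ, hρ, hρM⟩ := hc
  have hp : M.IsPrime := hM.1.1
  have hn : Nontrivial (K[X][X] ⧸ M) := Ideal.Quotient.nontrivial_iff.2 hp.ne_top
  have hFM : F ∈ M := hM.1.2 (Ideal.subset_span (Set.mem_insert _ _))
  exact dm_pt _ (Ideal.Quotient.mk M) Ideal.Quotient.mk_surjective rfl hρ
    (Ideal.Quotient.eq_zero_iff_mem.2 (hM.1.2 hρM)) hF (Ideal.Quotient.eq_zero_iff_mem.2 hFM)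

theorem dim_line {K : Type} [Field K] {I : Ideal K[X]} (hI : I ≠ ⊥) :
    ∀ M ∈ I.minimalPrimes, @Algebra.trdeg K (K[X] ⧸ M) _ _
      ((Ideal.Quotient.mk M).comp C).toAlgebra = ((0 : ℕ) : Cardinal) := by
  intro M hM
  have hp : M.IsPrime := hM.1.1
  have hn : Nontrivial (K[X] ⧸ M) := Ideal.Quotient.nontrivial_iff.2 hp.ne_top
  obtain ⟨ρ, hρI, hρ⟩ := Submodule.exists_mem_ne_zero_of_ne_bot hI
  exact dm_ln _ (Ideal.Quotient.mk M) Ideal.Quotient.mk_surjective rfl hρ
    (Ideal.Quotient.eq_zero_iff_mem.2 (hM.1.2 hρI))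

/-- the model of `R[x, y]` is `K[x, y]` -/
theorem model_two (R : Type) [CommRing R] [IsDomain R] :
    KModel (S := R[X][X]) (O := (FractionRing R)[X][X]) R
      (mapRingHom (mapRingHom (algebraMap R (FractionRing R)))) (C.comp C) := by
  refine ⟨?_, fun r => ?_, fun o => ?_⟩
  · rw [coe_mapRingHom]
    refine map_injective _ ?_
    rw [coe_mapRingHom]
    exact map_injective _ (IsFractionRing.injective R (FractionRing R))
  · have h1 : algebraMap R R[X][X] r = C (C r) := rfl
    rw [h1, coe_mapRingHom, map_C, coe_mapRingHom, map_C]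
    rfl
  · exact dm_surj (dm_surj dm_frac) o

theorem model_one (R : Type) [CommRing R] [IsDomain R] :
    KModel (S := R[X]) (O := (FractionRing R)[X]) R
      (mapRingHom (algebraMap R (FractionRing R))) C := by
  refine ⟨?_, fun r => ?_, fun o => ?_⟩
  · rw [coe_mapRingHom]
    exact map_injective _ (IsFractionRing.injective R (FractionRing R))
  · have h1 : algebraMap R R[X] r = C r := rfl
    rw [h1, coe_mapRingHom, map_C]
  · exact dm_surj dm_frac o

theorem away_two {R R' : Type} [CommRing R] [CommRing R'] {ι : R →+* R'} {D : R}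
    (h : IsAway ι D) : IsAway (mapRingHom (mapRingHom ι)) (algebraMap R R[X][X] D) := by
  exact dm_away (dm_away h)

theorem away_one {R R' : Type} [CommRing R] [CommRing R'] {ι : R →+* R'} {D : R}
    (h : IsAway ι D) : IsAway (mapRingHom ι) (algebraMap R R[X] D) := by
  exact dm_away h

end Pool.Agent.Lib.MP_1a0ddd_nt.Pu
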