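import Pool.Agent.Lib.MP_1a0ddd_nt.Pu.Spr
import Pool.Agent.Lib.MP_1a0ddd_nt.Pu.Dim
import Pool.Agent.Lib.MP_1a0ddd_nt.Pu.Chg
import Pool.Agent.Lib.MP_1a0ddd_nt.Pu.Avg

/-! Pencils with one point at infinity. -/

set_option autoImplicit false

namespace Pool.Agent.Lib.MP_1a0ddd_nt.Pu

open Polynomial Pool.Agent.Lib.MP_1a0ddd_nt.V Pool.Agent.Lib.MP_1a0ddd_nt.W Un

/-- `R[1/D]` as the localisation -/
private theorem isAway_loc {R : Type} [CommRing R] [IsDomain R] {D : R} (hD : D ≠ 0) :
    IsAway (algebraMap R (Localization.Away D)) D := by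
  refine ⟨?_, IsLocalization.Away.algebraMap_isUnit D, fun x => ?_⟩
  · exact IsLocalization.injective (Localization.Away D)
      (powers_le_nonZeroDivisors_of_noZeroDivisors hD)
  · obtain ⟨m, s, h⟩ := IsLocalization.Away.surj D x
    exact ⟨s, m, h⟩

private theorem dom_loc {R : Type} [CommRing R] [IsDomain R] {D : R} (hD : D ≠ 0) :
    IsDomain (Localization.Away D) :=
  IsLocalization.isDomain_localization (powers_le_nonZeroDivisors_of_noZeroDivisors hD)

private theorem map_span_one {R S : Type} [CommRing R] [CommRing S] (φ : R →+* S)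
    (G : R[X][X]) : (Ideal.span {G}).map (mapRingHom (mapRingHom φ)) =
      Ideal.span {bc φ G} := by
  rw [Ideal.map_span, Set.image_singleton]
  rfl

private theorem map_span_two {R S : Type} [CommRing R] [CommRing S] (φ : R →+* S)
    (F G : R[X][X]) : (Ideal.span {F, G}).map (mapRingHom (mapRingHom φ)) =
      Ideal.span {bc φ F, bc φ G} := by
  rw [Ideal.map_span, Set.image_pair]
  rfl

private theorem cab_cabData {R : Type} [CommRing R] {a b d m N : ℕ} {F G : R[X][X]}
    (h : CabPen a b F G)
    (h1 : ∃ P : Fin m → Ideal R[X][X], CompsG R (Ideal.span {G}) (d + 1) P)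
    (h2 : ∃ P : Fin N → Ideal R[X][X], CompsG R (Ideal.span {F, G}) d P) :
    CabData R a b F G d m N :=
  ⟨h.apos, h.bpos, h.cop, h.cab, h.low, h.ne, h.reg, h1, h2⟩

/-- Proof. `comps_spread` for `(G)` and `(F, G)` in `R[x, y]` (with `dim_curve`, `dim_point`,
`model_two`, `away_two`) gives `D₀`; for `D₀ ∣ D` apply `fin_curve` of `V/Fin.lean` to
`R' = Localization.Away D`; its conclusions are carried over by `avg_away` and `away_frac`; the `r` does not
depend on `D` (it is `ncomp - ncomp`) -/
theorem cab_unc {R : Type} [CommRing R] [IsDomain R] {a b d : ℕ} {F G : R[X][X]}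
    (hR : BaseVar R d) (h : CabPen a b F G) :
    ∃ r : ℕ, r + ncomp (Ideal.span {gen G}) = ncomp (Ideal.span {gen F, gen G}) ∧
      NagaoCU F G d r := by
  have hP : Pencil F G := cab_pencil h.apos h.bpos h.cop h.cab h.low h.ne h.reg
  have hinjK : Function.Injective (algebraMap R (FractionRing R)) :=
    IsFractionRing.injective R (FractionRing R)
  have hPK : Pencil (gen F) (gen G) := pencil_map (algebraMap R (FractionRing R)) hinjK hP
  have hf : Algebra.FiniteType R R[X][X] :=
    Algebra.FiniteType.trans (S := R[X]) inferInstance inferInstance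
  obtain ⟨D₁, hD₁, H₁⟩ := comps_spread (S := R[X][X]) (O := (FractionRing R)[X][X]) (e := 1) hR hf
    (model_two R) (Ideal.span {G}) (by
      rw [map_span_one]
      exact dim_curve hPK.ne)
  obtain ⟨D₂, hD₂, H₂⟩ := comps_spread (S := R[X][X]) (O := (FractionRing R)[X][X]) (e := 0) hR hf
    (model_two R) (Ideal.span {F, G}) (by
      rw [map_span_two]
      exact dim_point hPK.monic hPK.cop)
  rw [map_span_one] at H₁
  rw [map_span_two] at H₂
  have key : ∀ D : R, D ≠ 0 → D₁ * D₂ ∣ D → ∃ r : ℕ,
      r + ncomp (Ideal.span {gen G}) = ncomp (Ideal.span {gen F, gen G}) ∧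
      NagaoC (bc (algebraMap R (Localization.Away D)) F)
        (bc (algebraMap R (Localization.Away D)) G) d r := by
    intro D hD hdvd
    have hA := isAway_loc hD
    have hA2 := away_two hA
    have hdom : IsDomain (Localization.Away D) := dom_loc hD
    have hR' : BaseVar (Localization.Away D) d := baseVar_away hR hD hA
    have c1 := H₁ D hD ((dvd_mul_right _ _).trans hdvd) (Localization.Away D)
      (Localization.Away D)[X][X] (algebraMap R (Localization.Away D))
      (mapRingHom (mapRingHom (algebraMap R (Localization.Away D)))) hA hA2 (fun r => by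
        simp [Polynomial.algebraMap_apply])
    have c2 := H₂ D hD ((dvd_mul_left _ _).trans hdvd) (Localization.Away D)
      (Localization.Away D)[X][X] (algebraMap R (Localization.Away D))
      (mapRingHom (mapRingHom (algebraMap R (Localization.Away D)))) hA hA2 (fun r => by
        simp [Polynomial.algebraMap_apply])
    rw [map_span_one] at c1
    rw [map_span_two] at c2
    exact fin_curve ⟨hR'.domain, hR'.zero, hR'.finite⟩
      (cab_cabData (cabPen_map hA.inj h) c1 c2)
  obtain ⟨r, hr, h0⟩ := key (D₁ * D₂) (mul_ne_zero hD₁ hD₂) (dvd_refl _)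
  refine ⟨r, hr, ⟨D₁ * D₂, mul_ne_zero hD₁ hD₂, fun D hD hdvd => ?_⟩, ?_, fin_over hP⟩
  · obtain ⟨r', hr', h1⟩ := key D hD hdvd
    have e : r' = r := by omega
    rw [e] at h1
    exact h1.mean.congr' 0 fun p _ hp => (avg_away (isAway_loc hD) F G d p hp).symm
  · have hD : D₁ * D₂ ≠ 0 := mul_ne_zero hD₁ hD₂
    set D := D₁ * D₂ with hDd
    have hu : IsUnit (algebraMap R (FractionRing R) D) := by
      refine IsUnit.mk0 _ fun h => hD ?_
      exact hinjK (by rw [h, map_zero])
    let _ : Algebra (Localization.Away D) (FractionRing R) :=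
      (IsLocalization.Away.lift D hu).toAlgebra
    have hdom : IsDomain (Localization.Away D) := dom_loc hD
    have htow : IsScalarTower R (Localization.Away D) (FractionRing R) :=
      IsScalarTower.of_algebraMap_eq fun x => (IsLocalization.Away.lift_eq D hu x).symm
    have hfr : IsFractionRing (Localization.Away D) (FractionRing R) :=
      IsFractionRing.isFractionRing_of_isDomain_of_isLocalization (Submonoid.powers D)
        (Localization.Away D) (FractionRing R)
    have h1 := h0.rank (FractionRing R)
    have h2 : ∀ P : R[X][X], bc (algebraMap (Localization.Away D) (FractionRing R))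
        (bc (algebraMap R (Localization.Away D)) P) = gen P := by
      intro P
      unfold gen bc
      rw [Polynomial.map_map, Polynomial.mapRingHom_comp, ← IsScalarTower.algebraMap_eq]
    rw [h2, h2] at h1
    exact h1

end Pool.Agent.Lib.MP_1a0ddd_nt.Pu
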