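import Pool.Agent.Lib.MP_1a0ddd_nt.V.State
import Pool.Agent.Lib.MP_1a0ddd_nt.Un.Defs

/-! Linear pencils of plane curves over arbitrary bases, unconditional form: definitions. -/

set_option autoImplicit false

namespace Pool.Agent.Lib.MP_1a0ddd_nt.Pu

open Polynomial Pool.Agent.Lib.MP_1a0ddd_nt.W Pool.Agent.Lib.MP_1a0ddd_nt.V

/-- the number of components of the closed subset which is defined by the ideal `I` -/
noncomputable def ncomp {S : Type} [CommRing S] (I : Ideal S) : ℕ := I.minimalPrimes.ncard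

/-- the polynomial `F` over the fraction field of `R` -/
noncomputable abbrev gen {R : Type} [CommRing R] (F : R[X][X]) : (FractionRing R)[X][X] :=
  bc (algebraMap R (FractionRing R)) F

/-- `F` is a `C_{ab}` polynomial, `a` and `b` are coprime, all monomials of `G ≠ 0` have smaller
weight, and over the fraction field no base point is singular on both `F = 0` and `G = 0` -/
structure CabPen {R : Type} [CommRing R] (a b : ℕ) (F G : R[X][X]) : Prop where
  apos : 0 < a
  bpos : 0 < b
  cop : a.Coprime b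
  cab : IsCab a b F
  low : Low a b G
  ne : G ≠ 0
  reg : Regular F G

/-- the sum of the traces `trc` over the `F_p`-points `(z, t)` of `Spec R × A¹` with `D(z) ≠ 0`,
divided by `p^(d+1)` -/
noncomputable def avgD {R : Type} [CommRing R] (F G : R[X][X]) (D : R) (d p : ℕ) : ℝ :=
  (∑ᶠ z : {z : R →+* ZMod p // z D ≠ 0}, ∑ᶠ t : ZMod p, (trc F G p z.1 t : ℝ)) /
    (p : ℝ) ^ (d + 1)

/-- the sum of the `trP` over the `F_p`-points `(z, t)` of `Spec R × A¹` with `D(z) ≠ 0` and
`B_z(t) ≠ 0`, divided by `p^(d+1)` -/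
noncomputable def avgPD {R : Type} [CommRing R] (δ : ℕ) (F G : R[X][X]) (B : R[X]) (D : R)
    (d p : ℕ) : ℝ :=
  (∑ᶠ z : {z : R →+* ZMod p // z D ≠ 0}, ∑ᶠ t : {t : ZMod p // (B.map z.1).eval t ≠ 0},
    (trP δ F G p z.1 t : ℝ)) / (p : ℝ) ^ (d + 1)

/-- Q1 for a pencil of curves with one point at infinity: the mean of the averages is `-r`, and
`r` is the rank of the Picard group over the fraction field of `R` -/
structure NagaoCU {R : Type} [CommRing R] [IsDomain R] (F G : R[X][X]) (d r : ℕ) : Prop where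
  mean : ∃ D₀ : R, D₀ ≠ 0 ∧ ∀ D : R, D ≠ 0 → D₀ ∣ D → Quad.TauMean (avgD F G D d) (-(r : ℝ))
  rank : picRank (gen F) (gen G) = r
  finite : FiniteOverAll F G

/-- Q1 for a pencil of projective plane curves `C`: the mean of the averages is `-ρ`, and over
the fraction field of `R` one has `ρ = r - u + n - 1`, where `r` is the rank of the Picard group
of the affine curve, `u` the rank of its units modulo constants and `n` the number of closed
points at infinity (so `ρ` is the rank of `Pic⁰(C)`) -/
structure NagaoPU {R : Type} [CommRing R] [IsDomain R] (δ : ℕ) (F G : R[X][X]) (B : R[X])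
    (d : ℕ) (ρ : ℤ) : Prop where
  mean : ∃ D₀ : R, D₀ ≠ 0 ∧ ∀ D : R, D ≠ 0 → D₀ ∣ D →
    Quad.TauMean (avgPD δ F G B D d) (-(ρ : ℝ))
  rank : ρ = picRank (gen F) (gen G) - unitRank (gen F) (gen G) +
    infPoints δ (gen F) (gen G) - 1
  finite : FiniteOverAll F G

/-- `S' = S[1/D]` -/
structure IsAway {S S' : Type} [CommRing S] [CommRing S'] (ι : S →+* S') (D : S) : Prop where
  inj : Function.Injective ι
  unit : IsUnit (ι D)
  surj : ∀ x : S', ∃ (s : S) (m : ℕ), x * ι D ^ m = ι s

end Pool.Agent.Lib.MP_1a0ddd_nt.Pu
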