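import Pool.Agent.Lib.MP_1a0ddd_nt.Pu.Spr
import Pool.Agent.Lib.MP_1a0ddd_nt.Pu.Dim
import Pool.Agent.Lib.MP_1a0ddd_nt.Pu.Chg
import Pool.Agent.Lib.MP_1a0ddd_nt.Pu.Avg

/-! Pencils of projective plane curves. -/

set_option autoImplicit false

namespace Pool.Agent.Lib.MP_1a0ddd_nt.Pu

open Polynomial Pool.Agent.Lib.MP_1a0ddd_nt.V Pool.Agent.Lib.MP_1a0ddd_nt.W Un

/-! ### Spreading out in the plane and on the line -/

private theorem spread_plane {R O : Type} [CommRing R] [IsDomain R] [CommRing O] {d e : ℕ}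
    (hR : BaseVar R d) {j : R[X][X] →+* O} {κ : FractionRing R →+* O} (hj : Cn.KModel R j κ)
    {I : Ideal R[X][X]} {J : Ideal O} (hJ : I.map j = J)
    (hdim : ∀ M ∈ J.minimalPrimes, @Algebra.trdeg (FractionRing R) (O ⧸ M) _ _
      ((Ideal.Quotient.mk M).comp κ).toAlgebra = (e : Cardinal)) :
    ∃ D₀ : R, D₀ ≠ 0 ∧ ∀ D : R, D ≠ 0 → D₀ ∣ D → ∀ (R' : Type) [CommRing R']
      (ι₀ : R →+* R'), IsAway ι₀ D → ∃ P : Fin (ncomp J) → Ideal R'[X][X],
        CompsG R' (I.map (mapRingHom (mapRingHom ι₀))) (d + e) P := by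
  subst hJ
  have h1 : Algebra.FiniteType R R[X] := inferInstance
  have hf : Algebra.FiniteType R R[X][X] := Algebra.FiniteType.trans h1 inferInstance
  obtain ⟨D₀, h0, h⟩ := comps_spread hR hf hj I hdim
  refine ⟨D₀, h0, fun D hD hdvd R' _ ι₀ hι => ?_⟩
  exact h D hD hdvd R' R'[X][X] ι₀ (mapRingHom (mapRingHom ι₀)) hι (away_two hι) fun r => by
    simp [Polynomial.algebraMap_apply]

private theorem spread_line {R O : Type} [CommRing R] [IsDomain R] [CommRing O] {d e : ℕ}
    (hR : BaseVar R d) {j : R[X] →+* O} {κ : FractionRing R →+* O} (hj : Cn.KModel R j κ)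
    {I : Ideal R[X]} {J : Ideal O} (hJ : I.map j = J)
    (hdim : ∀ M ∈ J.minimalPrimes, @Algebra.trdeg (FractionRing R) (O ⧸ M) _ _
      ((Ideal.Quotient.mk M).comp κ).toAlgebra = (e : Cardinal)) :
    ∃ D₀ : R, D₀ ≠ 0 ∧ ∀ D : R, D ≠ 0 → D₀ ∣ D → ∀ (R' : Type) [CommRing R']
      (ι₀ : R →+* R'), IsAway ι₀ D → ∃ P : Fin (ncomp J) → Ideal R'[X],
        CompsG R' (I.map (mapRingHom ι₀)) (d + e) P := by
  subst hJ
  have hf : Algebra.FiniteType R R[X] := inferInstance
  obtain ⟨D₀, h0, h⟩ := comps_spread hR hf hj I hdim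
  refine ⟨D₀, h0, fun D hD hdvd R' _ ι₀ hι => ?_⟩
  exact h D hD hdvd R' R'[X] ι₀ (mapRingHom ι₀) hι (away_one hι) fun r => by
    simp

/-! ### Auxiliary lemmas -/

/-- the polynomial `fib F G B` is not zero -/
private theorem fib_ne_zero {K : Type} [Field K] {F G : K[X][X]} (h : Pencil F G) {B : K[X]}
    (hB : B ≠ 0) : fib F G B ≠ 0 := by
  classical
  have hF0 : F ≠ 0 := h.monic.ne_zero
  have hpow : ∀ i : ℕ, i < B.natDegree →
      (C (C (B.coeff i)) * (-F) ^ i * G ^ (B.natDegree - i)).natDegree <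
        B.natDegree * F.natDegree := by
    intro i hi
    have h1 : (C (C (B.coeff i)) * (-F) ^ i * G ^ (B.natDegree - i)).natDegree ≤
        i * F.natDegree + (B.natDegree - i) * G.natDegree := by
      refine (natDegree_mul_le).trans (add_le_add ?_ (natDegree_pow_le))
      refine (natDegree_C_mul_le _ _).trans ?_
      refine natDegree_pow_le.trans ?_
      rw [natDegree_neg]
    have h3 : (B.natDegree - i) * G.natDegree < (B.natDegree - i) * F.natDegree :=
      Nat.mul_lt_mul_of_pos_left h.lt (by omega)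
    have h4 : B.natDegree * F.natDegree = i * F.natDegree + (B.natDegree - i) * F.natDegree := by
      rw [← add_mul]
      congr 1
      omega
    omega
  intro h0
  have hc : (fib F G B).coeff (B.natDegree * F.natDegree) = 0 := by rw [h0, coeff_zero]
  rw [fib, finsetSum_coeff, Finset.sum_range_succ, Finset.sum_eq_zero, zero_add] at hc
  · rw [Nat.sub_self, pow_zero, mul_one, coeff_C_mul] at hc
    have h1 : (-F) ^ B.natDegree ≠ 0 := pow_ne_zero _ (neg_ne_zero.2 hF0)
    have h2 : ((-F) ^ B.natDegree).coeff (B.natDegree * F.natDegree) ≠ 0 := by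
      have h3 := leadingCoeff_ne_zero.2 h1
      rwa [leadingCoeff, natDegree_pow, natDegree_neg] at h3
    rcases mul_eq_zero.mp hc with h3 | h3
    · rw [C_eq_zero] at h3
      exact hB (leadingCoeff_eq_zero.mp h3)
    · exact h2 h3
  · intro i hi
    exact coeff_eq_zero_of_natDegree_lt (hpow i (Finset.mem_range.1 hi))

private theorem isAway_loc {R R' : Type} [CommRing R] [IsDomain R] [CommRing R'] [Algebra R R']
    {D : R} [IsLocalization.Away D R'] (hD : D ≠ 0) : IsAway (algebraMap R R') D where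
  inj := IsLocalization.injective R' (powers_le_nonZeroDivisors_of_noZeroDivisors hD)
  unit := IsLocalization.Away.algebraMap_isUnit D
  surj := fun x => by
    obtain ⟨m, s, h⟩ := IsLocalization.Away.surj D x
    exact ⟨s, m, h⟩

private theorem bc_bc {R R' S : Type} [CommRing R] [CommRing R'] [CommRing S] (φ : R →+* R')
    (ψ : R' →+* S) (F : R[X][X]) : bc ψ (bc φ F) = bc (ψ.comp φ) F := by
  unfold bc
  rw [Polynomial.map_map, mapRingHom_comp]

/-- the rank over the fraction field of `R` -/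
private theorem rank_away {R R' K : Type} [CommRing R] [IsDomain R] [CommRing R'] [Algebra R R']
    {D : R} [IsLocalization.Away D R'] [Field K] [Algebra R K] [IsFractionRing R K]
    (hD : D ≠ 0) {δ : ℕ} {F G : R[X][X]} {B : R'[X]} {d : ℕ} {ρ : ℤ}
    (h : NagaoP δ (bc (algebraMap R R') F) (bc (algebraMap R R') G) B d ρ) :
    ρ = picRank (bc (algebraMap R K) F) (bc (algebraMap R K) G) -
      unitRank (bc (algebraMap R K) F) (bc (algebraMap R K) G) +
      infPoints δ (bc (algebraMap R K) F) (bc (algebraMap R K) G) - 1 := by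
  have hu : IsUnit (algebraMap R K D) := by
    apply IsUnit.mk0
    rwa [Ne, IsFractionRing.to_map_eq_zero_iff]
  let ψ : R' →+* K := IsLocalization.Away.lift D hu
  let _ : Algebra R' K := ψ.toAlgebra
  have hst : IsScalarTower R R' K :=
    IsScalarTower.of_algebraMap_eq fun r => (IsLocalization.Away.lift_eq D hu r).symm
  have hfr : IsFractionRing R' K :=
    IsFractionRing.isFractionRing_of_isDomain_of_isLocalization (Submonoid.powers D) R' K
  have h1 := h.rank K
  rwa [bc_bc, bc_bc, ← IsScalarTower.algebraMap_eq] at h1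

private theorem map_span_one {R R' : Type} [CommRing R] [CommRing R'] (ι : R →+* R')
    (F : R[X][X]) :
    (Ideal.span {F}).map (mapRingHom (mapRingHom ι)) = Ideal.span {bc ι F} := by
  rw [Ideal.map_span, Set.image_singleton]
  rfl

private theorem map_span_two {R R' : Type} [CommRing R] [CommRing R'] (ι : R →+* R')
    (F G : R[X][X]) :
    (Ideal.span {F, G}).map (mapRingHom (mapRingHom ι)) = Ideal.span {bc ι F, bc ι G} := by
  rw [Ideal.map_span, Set.image_pair]
  rfl

private theorem map_span_line {R R' : Type} [CommRing R] [CommRing R'] (ι : R →+* R')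
    (F : R[X]) :
    (Ideal.span {F}).map (mapRingHom ι) = Ideal.span {F.map ι} := by
  rw [Ideal.map_span, Set.image_singleton]
  rfl

private theorem map_span_line2 {R R' : Type} [CommRing R] [CommRing R'] (ι : R →+* R')
    (F G : R[X]) :
    (Ideal.span {F, G}).map (mapRingHom ι) = Ideal.span {F.map ι, G.map ι} := by
  rw [Ideal.map_span, Set.image_pair]
  rfl

private theorem movInf_map {R R' : Type} [CommRing R] [CommRing R'] {ι : R →+* R'}
    (hι : Function.Injective ι) (δ : ℕ) (G : R[X][X]) : movInf δ (bc ι G) = movInf δ G := by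
  classical
  unfold movInf
  have h : top δ (bc ι G) = 0 ↔ top δ G = 0 := by
    rw [top_map, Polynomial.map_eq_zero_iff hι]
  by_cases h0 : top δ G = 0
  · rw [if_pos h0, if_pos (h.mpr h0)]
  · rw [if_neg h0, if_neg fun h1 => h0 (h.mp h1)]

/-! ### The pencil over an open subset of the base -/

private theorem main_away {R R' : Type} [CommRing R] [IsDomain R] [CommRing R'] [IsDomain R']
    {ι : R →+* R'} {δ d m N s w n₀ : ℕ} {F G : R[X][X]} {B : R[X]} (hR : BaseVar R d)
    (h : PlanePencil δ F G) (hirr : IrrGeneric F G B) {D : R} (hD : D ≠ 0) (hι : IsAway ι D)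
    (hBD : B.leadingCoeff ∣ D)
    (hG : ∃ P : Fin m → Ideal R'[X][X],
      CompsG R' ((Ideal.span {G}).map (mapRingHom (mapRingHom ι))) (d + 1) P)
    (hFG : ∃ P : Fin N → Ideal R'[X][X],
      CompsG R' ((Ideal.span {F, G}).map (mapRingHom (mapRingHom ι))) (d + 0) P)
    (hB : ∃ P : Fin s → Ideal R'[X],
      CompsG R' ((Ideal.span {B}).map (mapRingHom ι)) (d + 0) P)
    (hF : ∃ P : Fin w → Ideal R'[X][X],
      CompsG R' ((Ideal.span {fib F G B}).map (mapRingHom (mapRingHom ι))) (d + 1) P)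
    (hI : ∃ P : Fin n₀ → Ideal R'[X],
      CompsG R' ((Ideal.span {top δ F, top δ G}).map (mapRingHom ι)) (d + 0) P) :
    ∃ (ρ : ℤ) (u : R'), IsUnit u ∧ ρ + m + w + 1 = N + s + n₀ + movInf δ G ∧
      NagaoP δ (bc ι F) (bc ι G) (C u * B.map ι) d ρ := by
  have hR' : BaseVar R' d := baseVar_away hR hD hι
  have hu1 : IsUnit (ι B.leadingCoeff) := isUnit_of_dvd_unit (map_dvd ι hBD) hι.unit
  obtain ⟨v, hv⟩ := hu1
  have hu : IsUnit (↑v⁻¹ : R') := Units.isUnit _
  have hmon : (C (↑v⁻¹ : R') * B.map ι).Monic := by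
    rw [Monic, leadingCoeff_mul, leadingCoeff_C, leadingCoeff_map_of_injective hι.inj, ← hv,
      Units.inv_mul]
  have hCu : IsUnit (C (↑v⁻¹ : R')) := hu.map C
  have hCCu : IsUnit (C (C (↑v⁻¹ : R'))) := hCu.map C
  rw [map_span_one] at hG hF
  rw [map_span_two] at hFG
  rw [map_span_line] at hB
  rw [map_span_line2] at hI
  rw [add_zero] at hFG hB hI
  have hlw : Quad.LangWeilT R' d := by
    have h1 := hR'.zero
    have h2 := hR'.finite
    exact LW.langWeil R' d hR'.dim
  have hdata : Data R' δ (bc ι F) (bc ι G) (C (↑v⁻¹ : R') * B.map ι) d m N s w n₀ := by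
    refine ⟨hlw, planePencil_map hι.inj h, hmon, hG, hFG, ?_, ?_, ?_⟩
    · rw [Ideal.span_singleton_mul_left_unit hCu]
      exact hB
    · rw [fib_scale _ _ _ hu, Ideal.span_singleton_mul_left_unit hCCu, fib_map hι.inj]
      exact hF
    · rw [top_map, top_map]
      exact hI
  obtain ⟨ρ, h1, h2⟩ := fin_plane ⟨hR'.domain, hR'.zero, hR'.finite⟩ hdata
    (irrGeneric_map hι hirr hu)
  rw [movInf_map hι.inj] at h1
  exact ⟨ρ, _, hu, h1, h2⟩

/-- Proof. `comps_spread` for `(G)`, `(F, G)`, `(fib F G B)` in `R[x, y]`, and for `(B)`,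
`(top F, top G)` in `R[x]` (`dim_line`, `model_one`, `away_one`; `top F` is not `0` because `F` contains
`y^δ`); `D₀` is also divisible by the leading coefficient of `B`; for `D₀ ∣ D` apply `fin_plane` of
`V/Fin.lean` to `R' = Localization.Away D` and the monic polynomial `C u * B`, `u` the inverse of the
leading coefficient (`fib_scale`, `irrGeneric_map`); `LangWeilT R' d` from `LW.langWeil` and
`baseVar_away` -/
theorem plane_unc {R : Type} [CommRing R] [IsDomain R] {δ d : ℕ} {F G : R[X][X]} {B : R[X]}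
    (hR : BaseVar R d) (h : PlanePencil δ F G) (hB : B ≠ 0) (hirr : IrrGeneric F G B) :
    ∃ ρ : ℤ, ρ + ncomp (Ideal.span {gen G}) + ncomp (Ideal.span {gen (fib F G B)}) + 1 =
      ncomp (Ideal.span {gen F, gen G}) +
      ncomp (Ideal.span {B.map (algebraMap R (FractionRing R))}) +
      ncomp (Ideal.span {top δ (gen F), top δ (gen G)}) + movInf δ G ∧
      NagaoPU δ F G B d ρ := by
  have hinj := IsFractionRing.injective R (FractionRing R)
  have hp : PlanePencil δ (gen F) (gen G) := planePencil_map hinj h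
  have hBK : B.map (algebraMap R (FractionRing R)) ≠ 0 :=
    (Polynomial.map_ne_zero_iff hinj).mpr hB
  have hfib : gen (fib F G B) ≠ 0 := by
    unfold gen
    rw [← fib_map hinj]
    exact fib_ne_zero hp.pencil hBK
  have htop : Ideal.span {top δ (gen F), top δ (gen G)} ≠ ⊥ := by
    intro h0
    have h1 : top δ (gen F) ∈ Ideal.span {top δ (gen F), top δ (gen G)} :=
      Ideal.subset_span (by simp)
    rw [h0, Ideal.mem_bot] at h1
    exact (top_monic hp).1.ne_zero h1
  have hBB : Ideal.span {B.map (algebraMap R (FractionRing R))} ≠ ⊥ := by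
    rw [Ne, Ideal.span_singleton_eq_bot]
    exact hBK
  obtain ⟨D1, hD1, S1⟩ := spread_plane hR (model_two R) (map_span_one (algebraMap R (FractionRing R)) G)
    (dim_curve hp.pencil.ne)
  obtain ⟨D2, hD2, S2⟩ := spread_plane hR (model_two R) (map_span_two (algebraMap R (FractionRing R)) F G)
    (dim_point hp.pencil.monic hp.pencil.cop)
  obtain ⟨D3, hD3, S3⟩ := spread_line hR (model_one R) (map_span_line (algebraMap R (FractionRing R)) B)
    (dim_line hBB)
  obtain ⟨D4, hD4, S4⟩ := spread_plane hR (model_two R)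
    (map_span_one (algebraMap R (FractionRing R)) (fib F G B)) (dim_curve hfib)
  obtain ⟨D5, hD5, S5⟩ := spread_line hR (model_one R) (J := Ideal.span {top δ (gen F), top δ (gen G)})
    (I := Ideal.span {top δ F, top δ G}) (by
      rw [map_span_line2, top_map, top_map]) (dim_line htop)
  have hlc : B.leadingCoeff ≠ 0 := leadingCoeff_ne_zero.mpr hB
  obtain ⟨D₀, hD₀⟩ : ∃ D₀ : R, D₀ = D1 * D2 * D3 * D4 * D5 * B.leadingCoeff := ⟨_, rfl⟩
  have hD₀ne : D₀ ≠ 0 := by
    rw [hD₀]
    exact mul_ne_zero (mul_ne_zero (mul_ne_zero (mul_ne_zero (mul_ne_zero hD1 hD2) hD3) hD4) hD5)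
      hlc
  have key : ∀ D : R, D ≠ 0 → D₀ ∣ D → ∃ (ρ : ℤ) (u : Localization.Away D), IsUnit u ∧
      ρ + ncomp (Ideal.span {gen G}) + ncomp (Ideal.span {gen (fib F G B)}) + 1 =
        ncomp (Ideal.span {gen F, gen G}) +
        ncomp (Ideal.span {B.map (algebraMap R (FractionRing R))}) +
        ncomp (Ideal.span {top δ (gen F), top δ (gen G)}) + movInf δ G ∧
      NagaoP δ (bc (algebraMap R (Localization.Away D)) F)
        (bc (algebraMap R (Localization.Away D)) G)
        (C u * B.map (algebraMap R (Localization.Away D))) d ρ := by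
    intro D hD hdvd
    have hdom : IsDomain (Localization.Away D) :=
      IsLocalization.isDomain_localization (powers_le_nonZeroDivisors_of_noZeroDivisors hD)
    have hι : IsAway (algebraMap R (Localization.Away D)) D := isAway_loc hD
    have e1 : D1 ∣ D := (Dvd.intro (D2 * D3 * D4 * D5 * B.leadingCoeff) (by
      rw [hD₀]; ring)).trans hdvd
    have e2 : D2 ∣ D := (Dvd.intro (D1 * D3 * D4 * D5 * B.leadingCoeff) (by
      rw [hD₀]; ring)).trans hdvd
    have e3 : D3 ∣ D := (Dvd.intro (D1 * D2 * D4 * D5 * B.leadingCoeff) (by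
      rw [hD₀]; ring)).trans hdvd
    have e4 : D4 ∣ D := (Dvd.intro (D1 * D2 * D3 * D5 * B.leadingCoeff) (by
      rw [hD₀]; ring)).trans hdvd
    have e5 : D5 ∣ D := (Dvd.intro (D1 * D2 * D3 * D4 * B.leadingCoeff) (by
      rw [hD₀]; ring)).trans hdvd
    have e6 : B.leadingCoeff ∣ D := (Dvd.intro (D1 * D2 * D3 * D4 * D5) (by
      rw [hD₀]; ring)).trans hdvd
    exact main_away hR h hirr hD hι e6 (S1 D hD e1 _ _ hι) (S2 D hD e2 _ _ hι)
      (S3 D hD e3 _ _ hι) (S4 D hD e4 _ _ hι) (S5 D hD e5 _ _ hι)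
  obtain ⟨ρ, u₀, -, h1, h2⟩ := key D₀ hD₀ne dvd_rfl
  refine ⟨ρ, h1, ⟨D₀, hD₀ne, fun D hD hdvd => ?_⟩, ?_, fin_over h.pencil⟩
  · obtain ⟨ρ', u, hu, h3, h4⟩ := key D hD hdvd
    have hρ : ρ' = ρ := by omega
    subst hρ
    have hι : IsAway (algebraMap R (Localization.Away D)) D := isAway_loc hD
    refine h4.mean.congr' 0 fun p _ hpr => ?_
    exact (avgP_away hι δ F G B hu d p hpr).symm
  · exact rank_away hD₀ne h2

end Pool.Agent.Lib.MP_1a0ddd_nt.Pu
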