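import Pool.Agent.Lib.MP_1a0ddd_nt.Pu.Cab
import Pool.Agent.Lib.MP_1a0ddd_nt.Pu.Pln

/-! The statement of `PlanePencils`. -/

set_option autoImplicit false

namespace Pool.Agent.Lib.MP_1a0ddd_nt.Pu

open Polynomial Pool.Agent.Lib.MP_1a0ddd_nt.W Pool.Agent.Lib.MP_1a0ddd_nt.V

/-- the number of components over `K` of the closed subset of the affine plane where all the
polynomials in `s` vanish -/
noncomputable def comps2 {R K : Type} [CommRing R] [CommRing K] (ι : R →+* K)
    (s : Set R[X][X]) : ℕ :=
  ncomp (Ideal.span (bc ι '' s))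

/-- the same for the affine line -/
noncomputable def comps1 {R K : Type} [CommRing R] [CommRing K] (ι : R →+* K)
    (s : Set R[X]) : ℕ :=
  ncomp (Ideal.span (Polynomial.map ι '' s))

/-- the rank is the number of base points minus the number of components of `G = 0` -/
def RankC {R K : Type} [CommRing R] [CommRing K] (ι : R →+* K) (F G : R[X][X]) (r : ℕ) : Prop :=
  r + comps2 ι {G} = comps2 ι {F, G}

/-- the rank of a pencil of projective plane curves, in terms of the numbers of components of
`G = 0`, of the members over `B = 0`, of the base points, and of `B = 0`, and of the points at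
infinity -/
def RankP {R K : Type} [CommRing R] [CommRing K] (ι : R →+* K) (δ : ℕ) (F G : R[X][X])
    (B : R[X]) (ρ : ℤ) : Prop :=
  ρ + comps2 ι {G} + comps2 ι {fib F G B} + 1 =
    comps2 ι {F, G} + comps1 ι {B} + comps1 ι {top δ F, top δ G} + movInf δ G

theorem fin_cab {R : Type} [CommRing R] [IsDomain R] {a b d : ℕ} {F G : R[X][X]}
    (hR : Un.BaseVar R d) (h : CabPen a b F G) :
    ∃ r : ℕ, RankC (algebraMap R (FractionRing R)) F G r ∧ NagaoCU F G d r := by
  obtain ⟨r, h1, h2⟩ := cab_unc hR h
  refine ⟨r, ?_, h2⟩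
  unfold RankC comps2
  rw [Set.image_singleton, Set.image_pair]
  exact h1

theorem fin_plane {R : Type} [CommRing R] [IsDomain R] {δ d : ℕ} {F G : R[X][X]} {B : R[X]}
    (hR : Un.BaseVar R d) (h : PlanePencil δ F G) (hB : B ≠ 0) (hirr : IrrGeneric F G B) :
    ∃ ρ : ℤ, RankP (algebraMap R (FractionRing R)) δ F G B ρ ∧ NagaoPU δ F G B d ρ := by
  obtain ⟨ρ, h1, h2⟩ := plane_unc hR h hB hirr
  refine ⟨ρ, ?_, h2⟩
  unfold RankP comps2 comps1
  rw [Set.image_singleton, Set.image_pair, Set.image_singleton, Set.image_pair,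
    Set.image_singleton, ← top_map, ← top_map]
  exact h1

end Pool.Agent.Lib.MP_1a0ddd_nt.Pu
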