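import Pool.Agent.Lib.MP_1a0ddd_nt.Pu.Defs
import Pool.Agent.Lib.MP_1a0ddd_nt.Un.TrM
import Pool.Agent.Lib.MP_1a0ddd_nt.LW.Main

/-! Components of an ideal over an open subset of the base. -/

set_option autoImplicit false

namespace Pool.Agent.Lib.MP_1a0ddd_nt.Pu

open Polynomial Pool.Agent.Lib.MP_1a0ddd_nt.V Pool.Agent.Lib.MP_1a0ddd_nt.Fb
  Pool.Agent.Lib.MP_1a0ddd_nt.Cn Un

/-- clearing denominators in a finitely generated ideal -/
private theorem spr_clear {R S : Type} [CommRing R] [IsDomain R] [CommRing S] [Algebra R S]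
    {I J : Ideal S} (hJ : J.FG)
    (h : ∀ x ∈ J, ∃ r : R, r ≠ 0 ∧ algebraMap R S r * x ∈ I) :
    ∃ r : R, r ≠ 0 ∧ ∀ x ∈ J, algebraMap R S r * x ∈ I := by
  classical
  obtain ⟨s, rfl⟩ := hJ
  have h' : ∀ x : s, ∃ r : R, r ≠ 0 ∧ algebraMap R S r * x ∈ I :=
    fun x => h x (Submodule.subset_span x.2)
  choose r hr hrI using h'
  refine ⟨∏ x : s, r x, Finset.prod_ne_zero_iff.2 fun x _ => hr x, ?_⟩
  intro x hx
  refine Submodule.span_induction (p := fun y _ => algebraMap R S (∏ x : s, r x) * y ∈ I)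
    ?_ ?_ ?_ ?_ hx
  · intro y hy
    obtain ⟨c, hc⟩ := Finset.dvd_prod_of_mem r (Finset.mem_univ (⟨y, hy⟩ : s))
    rw [hc, map_mul, mul_comm (algebraMap R S (r ⟨y, hy⟩)), mul_assoc]
    exact I.mul_mem_left _ (hrI ⟨y, hy⟩)
  · rw [mul_zero]
    exact I.zero_mem
  · intro y z _ _ hy hz
    rw [mul_add]
    exact I.add_mem hy hz
  · intro a y _ hy
    rw [smul_eq_mul, mul_left_comm]
    exact I.mul_mem_left _ hy

/-- elements of the extension of an ideal to a model -/
private theorem spr_mem {R S O : Type} [CommRing R] [IsDomain R] [CommRing S]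
    [Algebra R S] [CommRing O] {j : S →+* O} {κ : FractionRing R →+* O}
    (hj : KModel R j κ) {I : Ideal S} {o : O} (ho : o ∈ I.map j) :
    ∃ s ∈ I, ∃ r : R, r ≠ 0 ∧ o * j (algebraMap R S r) = j s := by
  refine Submodule.span_induction
    (p := fun o _ => ∃ s ∈ I, ∃ r : R, r ≠ 0 ∧ o * j (algebraMap R S r) = j s) ?_ ?_ ?_ ?_ ho
  · rintro _ ⟨s, hs, rfl⟩
    exact ⟨s, hs, 1, one_ne_zero, by rw [map_one, map_one, mul_one]⟩
  · exact ⟨0, I.zero_mem, 1, one_ne_zero, by rw [map_zero, zero_mul]⟩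
  · rintro a b _ _ ⟨s, hs, r, hr, e⟩ ⟨s', hs', r', hr', e'⟩
    refine ⟨s * algebraMap R S r' + s' * algebraMap R S r,
      I.add_mem (I.mul_mem_right _ hs) (I.mul_mem_right _ hs'), r * r', mul_ne_zero hr hr', ?_⟩
    have h1 : j (s * algebraMap R S r' + s' * algebraMap R S r) =
        j s * j (algebraMap R S r') + j s' * j (algebraMap R S r) := by
      rw [map_add, map_mul, map_mul]
    rw [h1, ← e, ← e', map_mul, map_mul]
    ring
  · rintro a b _ ⟨s, hs, r, hr, e⟩
    obtain ⟨s', r', hr', e'⟩ := hj.surj a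
    refine ⟨s' * s, I.mul_mem_left _ hs, r' * r, mul_ne_zero hr' hr, ?_⟩
    have h1 : j (s' * s) = j s' * j s := map_mul _ _ _
    rw [h1, ← e, ← e', map_mul, map_mul, smul_eq_mul]
    ring

/-- the model of `S / P` -/
private theorem spr_quot {R S O : Type} [CommRing R] [IsDomain R] [CommRing S]
    [Algebra R S] [CommRing O] {j : S →+* O} {κ : FractionRing R →+* O}
    (hj : KModel R j κ) (I : Ideal O) :
    KModel R (S := S ⧸ I.comap j) (Ideal.quotientMap I j le_rfl)
      ((Ideal.Quotient.mk I).comp κ) := by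
  refine ⟨Ideal.quotientMap_injective, fun r => ?_, fun o => ?_⟩
  · change Ideal.Quotient.mk I (κ (algebraMap R (FractionRing R) r)) =
      Ideal.quotientMap I j le_rfl (Ideal.Quotient.mk _ (algebraMap R S r))
    rw [Ideal.quotientMap_mk, hj.comp]
  · obtain ⟨o, rfl⟩ := Ideal.Quotient.mk_surjective o
    obtain ⟨s, r, hr, e⟩ := hj.surj o
    refine ⟨Ideal.Quotient.mk _ s, r, hr, ?_⟩
    change Ideal.Quotient.mk I o *
      Ideal.quotientMap I j le_rfl (Ideal.Quotient.mk _ (algebraMap R S r)) = _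
    rw [Ideal.quotientMap_mk, Ideal.quotientMap_mk, ← map_mul, e]

/-- the relative dimension of `S / P` -/
private theorem spr_trdeg {R S O : Type} [CommRing R] [IsDomain R] [CommRing S]
    [Algebra R S] [CommRing O] {e : ℕ} {j : S →+* O} {κ : FractionRing R →+* O}
    (hj : KModel R j κ) {M : Ideal O} (hM : M.IsPrime)
    (hd : @Algebra.trdeg (FractionRing R) (O ⧸ M) _ _
      ((Ideal.Quotient.mk M).comp κ).toAlgebra = (e : Cardinal)) :
    Algebra.trdeg R (S ⧸ M.comap j) = (e : Cardinal) := by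
  have hP : (M.comap j).IsPrime := hM.comap _
  have d1 : IsDomain (S ⧸ M.comap j) := Ideal.Quotient.isDomain _
  have d2 : IsDomain (O ⧸ M) := Ideal.Quotient.isDomain _
  exact (trdeg_model (spr_quot hj M)).2 hd

/-- `S' = S[1/D]` as a localisation -/
private theorem spr_loc {S S' : Type} [CommRing S] [CommRing S'] {ι : S →+* S'} {D : S}
    (h : IsAway ι D) : @IsLocalization.Away S _ D S' _ ι.toAlgebra := by
  let _ := ι.toAlgebra
  refine ⟨?_, ?_, ?_⟩
  · rintro ⟨_, k, rfl⟩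
    change IsUnit (ι (D ^ k))
    rw [map_pow]
    exact h.unit.pow k
  · intro x
    obtain ⟨s, m, e⟩ := h.surj x
    refine ⟨(s, ⟨D ^ m, m, rfl⟩), ?_⟩
    change x * ι (D ^ m) = ι s
    rw [map_pow, e]
  · intro x y e
    exact ⟨1, by rw [h.inj e]⟩

/-- the prime ideals of `S[1/D]` -/
private theorem spr_prime {S S' : Type} [CommRing S] [CommRing S'] {ι : S →+* S'} {D : S}
    (h : IsAway ι D) {P₀ : Ideal S} (hP : P₀.IsPrime) (hD : D ∉ P₀) :
    (P₀.map ι).IsPrime ∧ ∀ x, ι x ∈ P₀.map ι ↔ x ∈ P₀ := by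
  let _ := ι.toAlgebra
  have hl : IsLocalization.Away D S' := spr_loc h
  have hdisj : Disjoint ((Submonoid.powers D : Submonoid S) : Set S) (P₀ : Set S) := by
    rw [Set.disjoint_left]
    rintro _ ⟨l, rfl⟩ hmem
    exact hD (hP.mem_of_pow_mem l hmem)
  refine ⟨IsLocalization.isPrime_of_isPrime_disjoint (Submonoid.powers D) S' P₀ hP hdisj, ?_⟩
  intro x
  have h5 := IsLocalization.under_map_of_isPrime_disjoint (Submonoid.powers D) S' hP hdisj
  conv_rhs => rw [← h5]
  exact Iff.rfl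

/-- finite type of `S[1/D]` -/
private theorem spr_ft {S S' : Type} [CommRing S] [CommRing S'] {ι : S →+* S'} {D : S}
    (h : IsAway ι D) (hS : Algebra.FiniteType ℤ S) (P : Ideal S') :
    @Algebra.FiniteType ℤ (S' ⧸ P) _ _ (Ring.toIntAlgebra _) := by
  let _ := ι.toAlgebra
  have hl : IsLocalization.Away D S' := spr_loc h
  have h1 : Algebra.FiniteType S S' := IsLocalization.finiteType_of_monoid_fg (Submonoid.powers D) S'
  have h2 : Algebra.FiniteType ℤ S' := Algebra.FiniteType.trans hS h1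
  have h5 : Algebra.FiniteType ℤ (S' ⧸ P) := inferInstance
  have h6 : Ideal.instAlgebraQuotient ℤ P = Ring.toIntAlgebra _ := Subsingleton.elim _ _
  rw [← h6]
  exact h5

/-- the ideal of the component in the open subset `D ≠ 0`: its point count -/
private theorem spr_count {R S S' : Type} [CommRing R] [IsDomain R] [CommRing S] [Algebra R S]
    [CommRing S'] {d n' : ℕ} (hR : BaseVar R d) (hS : Algebra.FiniteType R S) {P₀ : Ideal S}
    (hP : P₀.IsPrime) (hdom : ∀ r : R, algebraMap R S r ∈ P₀ → r = 0)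
    (htr : Algebra.trdeg R (S ⧸ P₀) = (n' : Cardinal)) {D : R} (hD : D ≠ 0) {ι : S →+* S'}
    (hι : IsAway ι (algebraMap R S D)) {P : Ideal S'} (hP' : P.IsPrime)
    (hmem : ∀ x : S, ι x ∈ P ↔ x ∈ P₀) :
    Quad.LangWeilT (S' ⧸ P) (d + n') := by
  have := hR.zero
  have := hR.finite
  have hSf : Algebra.FiniteType ℤ S := Algebra.FiniteType.trans hR.finite hS
  have hinj : Function.Injective (algebraMap R (S ⧸ P₀)) := by
    rw [injective_iff_map_eq_zero]
    intro r hr
    apply hdom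
    rw [← Ideal.Quotient.eq_zero_iff_mem]
    exact hr
  have hz : CharZero (S ⧸ P₀) := charZero_of_injective_ringHom hinj
  have ht : Algebra.trdeg ℤ (S ⧸ P₀) = ((d + n' : ℕ) : Cardinal) :=
    trdeg_tower hinj hR.dim htr
  have hle : P₀ ≤ P.comap ι := fun x hx => (hmem x).2 hx
  let f : S ⧸ P₀ →+* S' ⧸ P := Ideal.quotientMap P ι hle
  have hf : Function.Injective f :=
    Ideal.quotientMap_injective' fun x hx => (hmem x).1 hx
  have hz' : CharZero (S' ⧸ P) := charZero_of_injective_ringHom hf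
  have hD0 : Ideal.Quotient.mk P₀ (algebraMap R S D) ≠ 0 := by
    intro h0
    exact hD (hdom D (Ideal.Quotient.eq_zero_iff_mem.1 h0))
  have ha : ∀ x : S' ⧸ P, ∃ Q : (S ⧸ P₀)[X], Q ≠ 0 ∧ Q.eval₂ f x = 0 := by
    intro x
    obtain ⟨y, rfl⟩ := Ideal.Quotient.mk_surjective x
    obtain ⟨s, k, hks⟩ := hι.surj y
    refine ⟨C (Ideal.Quotient.mk P₀ (algebraMap R S D) ^ k) * X - C (Ideal.Quotient.mk P₀ s),
      ?_, ?_⟩
    · intro h0
      have h1 := congrArg (fun Q => Q.coeff 1) h0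
      simp only [coeff_sub, coeff_C_mul, coeff_X_one, mul_one, coeff_zero] at h1
      rw [coeff_C_of_ne_zero one_ne_zero, sub_zero] at h1
      exact pow_ne_zero k hD0 h1
    · rw [eval₂_sub, eval₂_mul, eval₂_C, eval₂_X, eval₂_C, map_pow]
      change (Ideal.Quotient.mk P (ι (algebraMap R S D))) ^ k *
        Ideal.Quotient.mk P y - Ideal.Quotient.mk P (ι s) = 0
      rw [← hks, map_mul, map_pow, mul_comm, sub_self]
  have hfin := spr_ft hι hSf P
  exact LW.langWeil _ _ ((trdeg_alg f hf ha).trans ht)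

/-- Proof (model: `comps_exist` in `Un/Cex.lean`). Let `M_i` be the minimal primes over `I O` (finitely
many, `O` is Noetherian), `P_i = M_i ∩ S`. `O/M_i` is a model of `S/P_i` (`KModel`), so
`trdeg_R (S/P_i) = e` (`trdeg_model`) and `trdeg_ℤ (S/P_i) = d + e` (`trdeg_tower`). A power of
`∏ M_i` is in `I O`; the `P_i` are finitely generated, so `D₀ (∏ P_i)^k ⊆ I` for some `D₀ ≠ 0` in `R`.
Over `S'` take the extensions of the `P_i`; their quotients are the `(S/P_i)[1/D]`, and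
`LW.langWeil` applies (`trdeg_away`) -/
theorem comps_spread {R S O : Type} [CommRing R] [IsDomain R] [CommRing S] [IsDomain S]
    [Algebra R S] [CommRing O] {d e : ℕ} (hR : BaseVar R d) (hf : Algebra.FiniteType R S)
    {j : S →+* O} {κ : FractionRing R →+* O} (hj : KModel R j κ) (I : Ideal S)
    (hdim : ∀ M ∈ (I.map j).minimalPrimes, @Algebra.trdeg (FractionRing R) (O ⧸ M) _ _
      ((Ideal.Quotient.mk M).comp κ).toAlgebra = (e : Cardinal)) :
    ∃ D₀ : R, D₀ ≠ 0 ∧ ∀ D : R, D ≠ 0 → D₀ ∣ D → ∀ (R' S' : Type) [CommRing R'] [CommRing S']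
      [Algebra R' S'] (ι₀ : R →+* R') (ι : S →+* S'), IsAway ι₀ D → IsAway ι (algebraMap R S D) →
      (∀ r, algebraMap R' S' (ι₀ r) = ι (algebraMap R S r)) →
      ∃ P : Fin (ncomp (I.map j)) → Ideal S', CompsG R' (I.map ι) (d + e) P := by
  classical
  have hRf := hR.finite
  have hRN : IsNoetherianRing R := Algebra.FiniteType.isNoetherianRing ℤ R
  have hSN : IsNoetherianRing S := Algebra.FiniteType.isNoetherianRing R S
  have hON : IsNoetherianRing O := kmodel_noetherian hj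
  have hunit : ∀ r : R, r ≠ 0 → IsUnit (j (algebraMap R S r)) := by
    intro r hr
    rw [← hj.comp]
    have h1 : algebraMap R (FractionRing R) r ≠ 0 := by
      rw [Ne, IsFractionRing.to_map_eq_zero_iff]
      exact hr
    exact (IsUnit.mk0 _ h1).map _
  -- the minimal primes
  have hfin : (I.map j).minimalPrimes.Finite := Ideal.finite_minimalPrimes_of_isNoetherianRing O _
  have : Finite (I.map j).minimalPrimes := hfin
  have hcard : Nat.card (I.map j).minimalPrimes = ncomp (I.map j) := Nat.card_coe_set_eq _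
  obtain ⟨M, hM, hMi, hMs⟩ : ∃ M : Fin (ncomp (I.map j)) → Ideal O,
      (∀ i, M i ∈ (I.map j).minimalPrimes) ∧ Function.Injective M ∧
      ∀ Q ∈ (I.map j).minimalPrimes, ∃ i, M i = Q := by
    rw [← hcard]
    let ε := Finite.equivFin (I.map j).minimalPrimes
    refine ⟨fun i => (ε.symm i : Ideal O), fun i => (ε.symm i).2, ?_, ?_⟩
    · intro a b hab
      exact ε.symm.injective (Subtype.ext hab)
    · intro Q hQ
      exact ⟨ε ⟨Q, hQ⟩, congrArg Subtype.val (ε.symm_apply_apply ⟨Q, hQ⟩)⟩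
  have hMp : ∀ i, (M i).IsPrime := fun i => (hM i).1.1
  -- the ideals of `S`
  let P₀ : Fin (ncomp (I.map j)) → Ideal S := fun i => (M i).comap j
  have hpr₀ : ∀ i, (P₀ i).IsPrime := fun i => (hMp i).comap j
  have hdom₀ : ∀ i (r : R), algebraMap R S r ∈ P₀ i → r = 0 := by
    intro i r hr
    by_contra h0
    exact (hMp i).ne_top (Ideal.eq_top_of_isUnit_mem _ hr (hunit r h0))
  have hinc₀ : ∀ i k, P₀ i ≤ P₀ k → i = k := by
    intro i k hik
    apply hMi
    have h1 : M i ≤ M k := by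
      intro o ho
      obtain ⟨s, r, hr, hs⟩ := hj.surj o
      have h5 : s ∈ P₀ k := by
        apply hik
        change j s ∈ M i
        rw [← hs]
        exact (M i).mul_mem_right _ ho
      have h6 : o * j (algebraMap R S r) ∈ M k := by
        rw [hs]
        exact h5
      rcases (hMp k).mem_or_mem h6 with h7 | h7
      · exact h7
      · exact absurd (hdom₀ k r h7) hr
    exact le_antisymm h1 ((hM k).2 (hM i).1 h1)
  -- the power
  obtain ⟨k, hk⟩ : ∃ k : ℕ, (∏ i, M i) ^ k ≤ I.map j := by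
    obtain ⟨k, hk⟩ := Ideal.exists_radical_pow_le_of_fg (I.map j)
      ((isNoetherianRing_iff_ideal_fg O).1 hON _)
    refine ⟨k, le_trans (Ideal.pow_right_mono ?_ k) hk⟩
    rw [← Ideal.sInf_minimalPrimes]
    refine le_sInf fun Q hQ => ?_
    obtain ⟨i, rfl⟩ := hMs Q hQ
    exact Ideal.prod_le_inf.trans (Finset.inf_le (Finset.mem_univ i))
  have hcl : ∀ x ∈ (∏ i, P₀ i) ^ k, ∃ r : R, r ≠ 0 ∧ algebraMap R S r * x ∈ I := by
    intro x hx
    have h5 : j x ∈ ((∏ i, P₀ i) ^ k).map j := Ideal.mem_map_of_mem j hx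
    have h6 : ((∏ i, P₀ i) ^ k).map j ≤ (∏ i, M i) ^ k := by
      rw [Ideal.map_pow]
      apply Ideal.pow_right_mono
      have h7 : (∏ i, P₀ i).map j = ∏ i, (P₀ i).map j := map_prod (Ideal.mapHom j) P₀ Finset.univ
      rw [h7]
      exact Finset.prod_le_prod' fun i _ => Ideal.map_le_iff_le_comap.2 le_rfl
    obtain ⟨s, hs, r, hr, e1⟩ := spr_mem hj (hk (h6 h5))
    refine ⟨r, hr, ?_⟩
    have h8 : algebraMap R S r * x = s := by
      apply hj.inj
      rw [map_mul, mul_comm, e1]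
    rw [h8]
    exact hs
  obtain ⟨D₀, hD₀, hD₀'⟩ := spr_clear (R := R) (S := S) (I := I)
    ((isNoetherianRing_iff_ideal_fg S).1 hSN ((∏ i, P₀ i) ^ k)) hcl
  refine ⟨D₀, hD₀, fun D hD hDD R' S' _ _ _ ι₀ ι hι₀ hι hcomp => ?_⟩
  -- the ideals over `S[1/D]`
  have hDn : ∀ i, algebraMap R S D ∉ P₀ i := fun i h => hD (hdom₀ i D h)
  let P : Fin (ncomp (I.map j)) → Ideal S' := fun i => (P₀ i).map ι
  have hprP : ∀ i, (P i).IsPrime := fun i => (spr_prime hι (hpr₀ i) (hDn i)).1
  have hcomP : ∀ i x, ι x ∈ P i ↔ x ∈ P₀ i := fun i => (spr_prime hι (hpr₀ i) (hDn i)).2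
  refine ⟨P, ?_, ⟨k, ?_⟩, ?_, hprP, ?_, ?_⟩
  · intro i
    exact Ideal.map_mono (Ideal.map_le_iff_le_comap.1 (hM i).1.2)
  · have h7 : (∏ i, P i) = (∏ i, P₀ i).map ι := (map_prod (Ideal.mapHom ι) P₀ Finset.univ).symm
    rw [h7, ← Ideal.map_pow, Ideal.map_le_iff_le_comap]
    intro x hx
    have h8 := hD₀' x hx
    rw [Ideal.mem_comap]
    have h9 : IsUnit (ι (algebraMap R S D₀)) :=
      isUnit_of_dvd_unit (map_dvd _ (map_dvd _ hDD)) hι.unit
    have h10 : ι (algebraMap R S D₀) * ι x ∈ I.map ι := by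
      rw [← map_mul]
      exact Ideal.mem_map_of_mem ι h8
    exact (Ideal.unit_mul_mem_iff_mem _ h9).1 h10
  · intro i l hil
    apply hinc₀
    intro x hx
    exact (hcomP l x).1 (hil ((hcomP i x).2 hx))
  · intro i r hr
    obtain ⟨s, m, hs⟩ := hι₀.surj r
    have h1 : s = 0 := by
      apply hdom₀ i
      rw [← hcomP i, ← hcomp, ← hs, map_mul]
      exact (P i).mul_mem_right _ hr
    rw [h1, map_zero] at hs
    exact ((hι₀.unit.pow m).mul_left_eq_zero).1 hs
  · intro i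
    exact spr_count hR hf (hpr₀ i) (hdom₀ i) (spr_trdeg hj (hMp i) (hdim _ (hM i))) hD hι (hprP i)
      (hcomP i)

end Pool.Agent.Lib.MP_1a0ddd_nt.Pu
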